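import Pool.Agent.Lib.ND.AllD
import Pool.Agent.Lib.NLF.AllF
import Pool.Agent.Lib.NLF.Lin

/-!
MP_00e23e_nt: primes in arithmetic progressions to moduli beyond x^(1/2) with dense divisors, with the maximum over ALL reduced
residue classes inside the sum, absolute values, and a power saving. The definitions li, resCount, resErr are in Pool.Agent.Lib.EH.Defs
and Pool.Agent.Lib.KF.Defs.
-/

namespace Pool.Agent.Results.MP_00e23e_nt.DenseClasses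

open Finset Pool.Agent.Results.MP_00e23e_nt

/-- d is squarefree and has a divisor m ≤ x^μ such that all primes of d/m are at most x^κ and such that for every real number Z with
m ≤ Z ≤ d and x^(1/6) ≤ Z ≤ x^(2/5) some divisor v of d/m satisfies m v ≤ Z < m v x^δ -/
def Dense (μ κ δ x : ℝ) (d : ℕ) : Prop :=
  Squarefree d ∧ ∃ m : ℕ, m ∣ d ∧ (m : ℝ) ≤ x ^ μ ∧ (∀ p : ℕ, p.Prime → p ∣ d / m → (p : ℝ) ≤ x ^ κ) ∧
    ∀ Z : ℝ, (m : ℝ) ≤ Z → Z ≤ (d : ℝ) → x ^ ((1 : ℝ) / 6) ≤ Z → Z ≤ x ^ ((2 : ℝ) / 5) →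
      ∃ v : ℕ, v ∣ d / m ∧ (m : ℝ) * v ≤ Z ∧ Z < (m : ℝ) * v * x ^ δ

/-- Every squarefree d with a divisor m ≤ x^μ such that all primes of d/m are ≤ x^δ', δ' ≤ κ, δ' ≤ δ, satisfies Dense. -/
theorem dense_of_smooth {μ κ δ δ' x : ℝ} {d m : ℕ} (hx : 1 < x) (h0 : 0 < δ) (h1 : δ' ≤ κ) (h2 : δ' ≤ δ)
    (hd : Squarefree d) (hm : m ∣ d) (hmx : (m : ℝ) ≤ x ^ μ)
    (hp : ∀ p : ℕ, p.Prime → p ∣ d / m → (p : ℝ) ≤ x ^ δ') : Dense μ κ δ x d := by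
  classical
  have hd0 : d ≠ 0 := hd.ne_zero
  have hm0 : 0 < m := Nat.pos_of_dvd_of_pos hm (Nat.pos_of_ne_zero hd0)
  have hmr : (0 : ℝ) < m := by exact_mod_cast hm0
  have hn0 : d / m ≠ 0 := by
    have := Nat.div_pos (Nat.le_of_dvd (Nat.pos_of_ne_zero hd0) hm) hm0
    omega
  have hdm : (d : ℝ) = (m : ℝ) * ((d / m : ℕ) : ℝ) := by
    have : d = m * (d / m) := (Nat.mul_div_cancel' hm).symm
    exact_mod_cast this
  refine ⟨hd, m, hm, hmx, fun p hp' hpd => (hp p hp' hpd).trans (Real.rpow_le_rpow_of_exponent_le hx.le h1), ?_⟩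
  intro Z hZ1 hZ2 _ _
  have hne : ((d / m).divisors.filter (fun v : ℕ => (m : ℝ) * v ≤ Z)).Nonempty :=
    ⟨1, Finset.mem_filter.2 ⟨Nat.one_mem_divisors.2 hn0, by rw [Nat.cast_one, mul_one]; exact hZ1⟩⟩
  obtain ⟨v, hv, hmax⟩ := Finset.exists_max_image _ id hne
  obtain ⟨hv1, hv2⟩ := Finset.mem_filter.1 hv
  have hvd : v ∣ d / m := Nat.dvd_of_mem_divisors hv1
  have hv0 : 0 < v := Nat.pos_of_dvd_of_pos hvd (Nat.pos_of_ne_zero hn0)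
  have hvr : (0 : ℝ) < v := by exact_mod_cast hv0
  refine ⟨v, hvd, hv2, ?_⟩
  by_cases hvn : v = d / m
  · have hδ1 : 1 < x ^ δ := Real.one_lt_rpow hx h0
    calc Z ≤ (m : ℝ) * v := by rw [hvn, ← hdm]; exact hZ2
      _ < (m : ℝ) * v * x ^ δ := lt_mul_of_one_lt_right (by positivity) hδ1
  · obtain ⟨u, hu⟩ := hvd
    have hu1 : u ≠ 1 := fun h => hvn (by rw [hu, h, mul_one])
    obtain ⟨p, hp1, hp2⟩ := Nat.exists_prime_and_dvd hu1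
    have hvp : v * p ∣ d / m := by rw [hu]; exact Nat.mul_dvd_mul_left v hp2
    have hpn : p ∣ d / m := (dvd_mul_left p v).trans hvp
    have hlt : Z < (m : ℝ) * ((v * p : ℕ) : ℝ) := by
      by_contra hc
      rw [not_lt] at hc
      have h3 : v * p ≤ v := hmax _ (Finset.mem_filter.2 ⟨Nat.mem_divisors.2 ⟨hvp, hn0⟩, hc⟩)
      have h4 := hp1.two_le
      have h5 : v * 2 ≤ v * p := Nat.mul_le_mul_left v h4
      omega
    refine hlt.trans_le ?_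
    push_cast
    rw [← mul_assoc]
    exact mul_le_mul_of_nonneg_left ((hp p hp1 hpn).trans (Real.rpow_le_rpow_of_exponent_le hx.le h2)) (by positivity)

/-- the powers of q² for q ≤ x^(1/2+δ) -/
private lemma dcKey {x δ r r' : ℝ} {q : ℕ} (hx1 : 1 ≤ x) (hq : (q : ℝ) ≤ x ^ (1 / 2 + δ)) (hr : 0 ≤ r)
    (hrr : (1 + 2 * δ) * r ≤ r') : ((q : ℝ) ^ 2) ^ r ≤ x ^ r' := by
  have hx0 : 0 ≤ x := by linarith
  have hd2 : (q : ℝ) ^ 2 ≤ x ^ (1 + 2 * δ) := by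
    calc (q : ℝ) ^ 2 ≤ (x ^ (1 / 2 + δ)) ^ 2 := pow_le_pow_left₀ (Nat.cast_nonneg q) hq 2
      _ = x ^ (1 + 2 * δ) := by
        rw [← Real.rpow_natCast, ← Real.rpow_mul hx0]
        congr 1
        push_cast
        ring
  calc ((q : ℝ) ^ 2) ^ r ≤ (x ^ (1 + 2 * δ)) ^ r := Real.rpow_le_rpow (by positivity) hd2 hr
    _ = x ^ ((1 + 2 * δ) * r) := by rw [Real.rpow_mul hx0]
    _ ≤ x ^ r' := Real.rpow_le_rpow_of_exponent_le hx1 hrr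

/-- the powers of q² for q > x^(1/2-c) -/
private lemma dcKey2 {x c r r' : ℝ} {q : ℕ} (hx1 : 1 ≤ x) (hq : x ^ (1 / 2 - c) < (q : ℝ)) (hr : 0 ≤ r)
    (hrr : r' ≤ (1 - 2 * c) * r) : x ^ r' ≤ ((q : ℝ) ^ 2) ^ r := by
  have hx0 : 0 ≤ x := by linarith
  have hd2 : x ^ (1 - 2 * c) ≤ (q : ℝ) ^ 2 := by
    calc x ^ (1 - 2 * c) = (x ^ (1 / 2 - c)) ^ 2 := by
          rw [← Real.rpow_natCast, ← Real.rpow_mul hx0]
          congr 1
          push_cast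
          ring
      _ ≤ (q : ℝ) ^ 2 := pow_le_pow_left₀ (Real.rpow_nonneg hx0 _) hq.le 2
  calc x ^ r' ≤ x ^ ((1 - 2 * c) * r) := Real.rpow_le_rpow_of_exponent_le hx1 hrr
    _ = (x ^ (1 - 2 * c)) ^ r := by rw [Real.rpow_mul hx0]
    _ ≤ ((q : ℝ) ^ 2) ^ r := Real.rpow_le_rpow (Real.rpow_nonneg hx0 _) hd2 hr

/-- the moduli with Dense relative to x -/
private lemma dcA {μ μ1 κ κ1 δ e ε x : ℝ} {q : ℕ} (hx1 : 1 ≤ x) (hμ : μ ≤ μ1) (hκ : κ ≤ κ1) (hδ : δ ≤ ε / 2) (he : 0 ≤ e)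
    (hεe : ε ≤ e) (he1 : e ≤ 1 / 100) (h : Dense μ κ δ x q) : Pool.Agent.Lib.ND.Dn μ1 κ1 e (ε / 2) x q := by
  obtain ⟨-, m, h1, h2, h3, h4⟩ := h
  intro hq
  refine ⟨m, h1, h2.trans (Real.rpow_le_rpow_of_exponent_le hx1 hμ),
    fun p hp hpd => (h3 p hp hpd).trans (Real.rpow_le_rpow_of_exponent_le hx1 hκ), fun Z hZ1 hZ2 hZ3 => ?_⟩
  obtain ⟨v, v1, v2, v3⟩ := h4 Z hZ1
    ((hZ3.trans (Real.rpow_le_rpow_of_exponent_le hx1 (by linarith))).trans hq.le)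
    ((Real.rpow_le_rpow_of_exponent_le hx1 (by linarith)).trans hZ2)
    (hZ3.trans (Real.rpow_le_rpow_of_exponent_le hx1 (by linarith)))
  exact ⟨v, v1, v2, v3.trans_le (mul_le_mul_of_nonneg_left (Real.rpow_le_rpow_of_exponent_le hx1 hδ) (by positivity))⟩

/-- the moduli with Dense relative to q² -/
private lemma dcC {μ μ1 κ κ1 δ e ε x : ℝ} {q : ℕ} (hx1 : 1 ≤ x) (hμ0 : 0 ≤ μ) (hκ0 : 0 ≤ κ) (hδ0 : 0 ≤ δ)
    (hμ : (1 + 2 * δ) * μ ≤ μ1) (hκ : (1 + 2 * δ) * κ ≤ κ1) (hδ : (1 + 2 * δ) * δ ≤ ε / 2) (hδe : δ ≤ e)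
    (hεe : ε ≤ e) (he1 : e ≤ 1 / 100) (hq1 : (q : ℝ) ≤ x ^ (1 / 2 + δ)) (h : Dense μ κ δ ((q : ℝ) ^ 2) q) :
    Pool.Agent.Lib.ND.Dn μ1 κ1 e (ε / 2) x q := by
  obtain ⟨-, m, h1, h2, h3, h4⟩ := h
  intro hq
  refine ⟨m, h1, h2.trans (dcKey hx1 hq1 hμ0 hμ), fun p hp hpd => (h3 p hp hpd).trans (dcKey hx1 hq1 hκ0 hκ),
    fun Z hZ1 hZ2 hZ3 => ?_⟩
  obtain ⟨v, v1, v2, v3⟩ := h4 Z hZ1
    ((hZ3.trans (Real.rpow_le_rpow_of_exponent_le hx1 (by linarith))).trans hq.le)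
    ((dcKey hx1 hq1 (by norm_num) (by linarith)).trans hZ2)
    (hZ3.trans (dcKey2 hx1 hq (by norm_num) (by linarith)))
  exact ⟨v, v1, v2, v3.trans_le (mul_le_mul_of_nonneg_left (dcKey hx1 hq1 hδ0 hδ) (by positivity))⟩

/-- Let μ, κ ≥ 0, 5 μ + 12 κ < 1. There is δ > 0 with the following three properties; in (A) and (B), x ≥ 3, M is a finite set of
moduli d ≤ x^(1/2+δ) with Dense μ κ δ x d, s(d) is any integer coprime to d and y(d) any number in [2, x] (so there is a maximum over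
all reduced classes modulo d and over y inside the sums).
(A) There are η > 0, A, C such that, if 1 ≤ z ≤ x, t(d) divides d, t(d) ≤ x^δ, and all primes of d/t(d) are greater than z,
∑_{d ∈ M} |π(y(d); d, s(d)) - π(y(d); t(d), s(d))/φ(d/t(d))| ≤ C x^(1 + A/loglog x)/z^η.
(B) For every U > 0 there is C with ∑_{d ∈ M} |π(y(d); d, s(d)) - li y(d)/φ(d)| ≤ C x/(log x)^U.
(C) For all c > 0, A there are η > 0, C such that for all D ≥ 2 there is a set E of at most C D^(1-η) integers such that all d in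
(D, 2D], not in E, with Dense μ κ δ (d^2) d, all of whose primes are greater than D^c, satisfy
|π(y; d, a) - π(y)/φ(d)| ≤ y^(1-η)/φ(d) for ALL integers a coprime to d and all y in [D^(2-δ), D^A]. -/
theorem result : ∀ μ κ : ℝ, 0 ≤ μ → 0 ≤ κ → 5 * μ + 12 * κ < 1 → ∃ δ : ℝ, 0 < δ ∧
    (∃ η A C : ℝ, 0 < η ∧ ∀ (x z : ℝ) (s : ℕ → ℤ) (y : ℕ → ℝ) (t : ℕ → ℕ) (M : Finset ℕ), 3 ≤ x → 1 ≤ z → z ≤ x →
      (∀ d ∈ M, Dense μ κ δ x d ∧ (d : ℝ) ≤ x ^ (1 / 2 + δ) ∧ Int.gcd (s d) d = 1 ∧ 2 ≤ y d ∧ y d ≤ x) →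
      (∀ d ∈ M, t d ∣ d ∧ (t d : ℝ) ≤ x ^ δ ∧ ∀ p : ℕ, p.Prime → p ∣ d / t d → z < (p : ℝ)) →
      ∑ d ∈ M, |(resCount (y d) d (s d) : ℝ) - (resCount (y d) (t d) (s d) : ℝ) / ((d / t d).totient : ℝ)| ≤
        C * (x ^ (1 + A / Real.log (Real.log x)) / z ^ η)) ∧
    (∀ U : ℝ, 0 < U → ∃ C : ℝ, ∀ (x : ℝ) (s : ℕ → ℤ) (y : ℕ → ℝ) (M : Finset ℕ), 3 ≤ x →
      (∀ d ∈ M, Dense μ κ δ x d ∧ (d : ℝ) ≤ x ^ (1 / 2 + δ) ∧ Int.gcd (s d) d = 1 ∧ 2 ≤ y d ∧ y d ≤ x) →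
      ∑ d ∈ M, |resErr (y d) d (s d)| ≤ C * (x / (Real.log x) ^ U)) ∧
    ∀ c A : ℝ, 0 < c → ∃ η C : ℝ, 0 < η ∧ ∀ D : ℝ, 2 ≤ D → ∃ E : Finset ℕ, (E.card : ℝ) ≤ C * D ^ (1 - η) ∧
      ∀ d : ℕ, d ∉ E → D < d → (d : ℝ) ≤ 2 * D → Dense μ κ δ ((d : ℝ) ^ 2) d → (∀ p : ℕ, p.Prime → p ∣ d → D ^ c < (p : ℝ)) →
        ∀ (a : ℤ) (y : ℝ), Int.gcd a d = 1 → D ^ (2 - δ) ≤ y → y ≤ D ^ A →
          |(resCount y d a : ℝ) - (resCount y 1 0 : ℝ) / (d.totient : ℝ)| ≤ y ^ (1 - η) / (d.totient : ℝ) := by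
  classical
  intro μ κ hμ0 hκ0 hμκ
  obtain ⟨b, hb⟩ : ∃ b : ℝ, b = (1 - 5 * μ - 12 * κ) / 100 := ⟨_, rfl⟩
  have hb0 : 0 < b := by rw [hb]; linarith
  obtain ⟨e, ε, he, hε, hεe, he1, hCore⟩ := Pool.Agent.Lib.ND.aEndD (μ + b) (κ + b) (by linarith) (by linarith)
    (by linarith)
  obtain ⟨δ, hδ, hδ1, hδ2⟩ : ∃ δ : ℝ, 0 < δ ∧ δ ≤ ε / 16 ∧ δ ≤ b :=
    ⟨min (ε / 16) b, lt_min (by linarith) hb0, min_le_left _ _, min_le_right _ _⟩
  have hδ10 : δ ≤ 1 / 10 := by linarith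
  have hμb : (1 + 2 * δ) * μ ≤ μ + b := by nlinarith
  have hκb : (1 + 2 * δ) * κ ≤ κ + b := by nlinarith
  have hδε : (1 + 2 * δ) * δ ≤ ε / 2 := by nlinarith
  have hA1 : Pool.Agent.Lib.NLF.NlA (Pool.Agent.Lib.ND.Dn (μ + b) (κ + b) e (ε / 2)) ε :=
    Pool.Agent.Lib.NLF.tFinAll _ _ _ hε.le (by linarith) (by positivity) (by linarith) hCore
  have hR1 : Pool.Agent.Lib.NLF.NlR (Pool.Agent.Lib.ND.Dn (μ + b) (κ + b) e (ε / 2)) ε (ε / 16) :=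
    Pool.Agent.Lib.NLF.tRonAll _ _ _ hε.le (by linarith) (by positivity) (by linarith) hCore
  have hA : Pool.Agent.Lib.NLF.NlA (fun x q => Dense μ κ δ x q) δ :=
    Pool.Agent.Lib.NLF.NlA.mono (fun x q hx hq => dcA (by linarith) (by linarith) (by linarith) (by linarith) he.le
      (by linarith) he1 hq) (by linarith) hA1
  have hR0 : Pool.Agent.Lib.NLF.NlR (fun x q => Dense μ κ δ x q) δ δ :=
    Pool.Agent.Lib.NLF.NlR.mono (fun x q hx hq => dcA (by linarith) (by linarith) (by linarith) (by linarith) he.le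
      (by linarith) he1 hq) (by linarith) hδ1 hR1
  have hR2 : Pool.Agent.Lib.NLF.NlR (fun _ q => Dense μ κ δ ((q : ℝ) ^ 2) q) δ δ := by
    obtain ⟨η, A, C, hη, hA, hC, H⟩ := hR1
    refine ⟨η, A, C, hη, hA, hC, fun x z s y t M hx hz hzx hy hM => H x z s y t M hx hz hzx hy fun d hd => ?_⟩
    obtain ⟨⟨a1, a2, a3, a4⟩, b1, b2, b3⟩ := hM d hd
    have hx1 : 1 ≤ x := by linarith
    exact ⟨⟨a1, a2.trans (Real.rpow_le_rpow_of_exponent_le hx1 (by linarith)),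
      dcC hx1 hμ0 hκ0 hδ.le hμb hκb hδε (by linarith) (by linarith) he1 a2 a3, a4⟩, b1,
      b2.trans (Real.rpow_le_rpow_of_exponent_le hx1 hδ1), b3⟩
  obtain ⟨η, A, C, hη, _, _, hR⟩ := id hR0
  refine ⟨δ, hδ, ⟨η, A, C, hη, ?_⟩, ?_, ?_⟩
  · intro x z s y t M hx hz hzx hM ht
    have h := hR x z s (fun d => if d ∈ M then y d else 2) t M hx hz hzx (by
      intro d
      by_cases hd : d ∈ M
      · simp only [hd, if_true]
        exact (hM d hd).2.2.2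
      · simp only [hd, if_false]
        exact ⟨le_rfl, by linarith⟩) (by
      intro d hd
      obtain ⟨m1, m3, m4, m5, m6⟩ := hM d hd
      exact ⟨⟨m1.1, m3, m1, m4⟩, ht d hd⟩)
    have hpow : x * Pool.Agent.Lib.MX.En A x = x ^ (1 + A / Real.log (Real.log x)) := by
      have hx0 : 0 < x := by linarith
      rw [Real.rpow_add hx0, Real.rpow_one]
      unfold Pool.Agent.Lib.MX.En
      rw [Real.rpow_def_of_pos hx0]
      congr 2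
      ring
    rw [hpow] at h
    refine le_trans (le_of_eq (sum_congr rfl fun d hd => ?_)) h
    simp only [hd, if_true]
    rfl
  · intro U hU
    obtain ⟨C, hC⟩ := hA U hU
    refine ⟨C, fun x s y M hx hM => ?_⟩
    have h := hC x s (fun d => if d ∈ M then y d else 2) M hx (by
      intro d
      by_cases hd : d ∈ M
      · simp only [hd, if_true]
        exact (hM d hd).2.2.2
      · simp only [hd, if_false]
        exact ⟨le_rfl, by linarith⟩) (by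
      intro d hd
      obtain ⟨m1, m3, m4, m5, m6⟩ := hM d hd
      exact ⟨m1.1, m3, m1, m4⟩)
    refine le_trans (le_of_eq (sum_congr rfl fun d hd => ?_)) h
    simp only [hd, if_true]
  · intro c A hc
    obtain ⟨η, C, hη, hη4, hC, H⟩ := hR2.almost hδ hδ10 hδ.le (fun _ _ _ _ _ h => h) hc (le_max_right A 2)
    refine ⟨η, C, hη, fun D hD => ?_⟩
    refine ⟨(Icc 1 ⌊2 * D⌋₊).filter (fun d : ℕ => (Squarefree d ∧ D < d ∧ (d : ℝ) ≤ 2 * D ∧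
      Dense μ κ δ ((d : ℝ) ^ 2) d ∧ ∀ p : ℕ, p.Prime → p ∣ d → D ^ c < (p : ℝ)) ∧
      ∃ (a : ℤ) (y : ℝ), Int.gcd a d = 1 ∧ D ^ (2 - δ) ≤ y ∧ y ≤ D ^ max A 2 ∧
        y ^ (1 - η) / (d.totient : ℝ) < |(resCount y d a : ℝ) - (resCount y 1 0 : ℝ) / (d.totient : ℝ)|),
      H D _ hD (fun d hd => (mem_filter.1 hd).2), ?_⟩
    intro d hdE hd1 hd2 hds hdp a y ha hy1 hy2
    by_contra hcon
    rw [not_le] at hcon
    refine hdE (mem_filter.2 ⟨mem_Icc.2 ⟨?_, Nat.le_floor hd2⟩, ⟨hds.1, hd1, hd2, hds, hdp⟩, a, y, ha, hy1, ?_, hcon⟩)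
    · exact Nat.one_le_iff_ne_zero.2 hds.1.ne_zero
    · exact hy2.trans (Real.rpow_le_rpow_of_exponent_le (by linarith) (le_max_left _ _))

end Pool.Agent.Results.MP_00e23e_nt.DenseClasses
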