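import Pool.Agent.Lib.MX.AllF

/-!
MP_00e23e_nt: primes in arithmetic progressions to squarefree moduli beyond x^(1/2), with nested maxima over all residue
classes and the maximum over y ≤ x inside the sum, absolute values. (A) d = m n, m ≤ x^τ, n without large primes, a bounded
number of nested maxima; (B) densely divisible d. The definitions li, resCount, resErr are in Pool.Agent.Lib.EH.Defs and
Pool.Agent.Lib.KF.Defs.
-/

namespace Pool.Agent.Results.MP_00e23e_nt.MaxInside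

open Finset Pool.Agent.Results.MP_00e23e_nt

/-- r is a product of the smallest primes of the squarefree number n: r ∣ n, each prime of r is smaller than each one of n/r -/
def Initial (r n : ℕ) : Prop := r ∣ n ∧ ∀ p q : ℕ, p.Prime → q.Prime → p ∣ r → q ∣ n / r → p < q

/-- r is the largest initial product of n with m r ≤ Z -/
def Largest (m : ℕ) (Z : ℝ) (r n : ℕ) : Prop :=
  Initial r n ∧ (m : ℝ) * r ≤ Z ∧ ∀ r' : ℕ, Initial r' n → (m : ℝ) * r' ≤ Z → r' ≤ r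

/-- n is y-dense up to w: every W in [1, w] with W ≤ n has a divisor e of n with e ≤ W < e y -/
def Dense (y w : ℝ) (n : ℕ) : Prop :=
  ∀ W : ℝ, 1 ≤ W → W ≤ w → W ≤ n → ∃ e : ℕ, e ∣ n ∧ (e : ℝ) ≤ W ∧ W < (e : ℝ) * y

/-- the condition of (B) at Z = x^σ bounds t(d) -/
private theorem small_divisor {x σ : ℝ} {d t v : ℕ} (hx : 1 < x) (hσ : σ < 1 / 3) (hd : Squarefree d) (ht : t ∣ d)
    (h : x ^ σ < d → v ∣ d / t ∧ (t : ℝ) * v ≤ x ^ σ) : (t : ℝ) ≤ x ^ ((1 : ℝ) / 3) := by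
  have hd0 : 0 < d := Nat.pos_of_ne_zero hd.ne_zero
  have h1 : x ^ σ ≤ x ^ ((1 : ℝ) / 3) := Real.rpow_le_rpow_of_exponent_le hx.le hσ.le
  refine le_trans ?_ h1
  by_cases hd' : x ^ σ < d
  · obtain ⟨h2, h3⟩ := h hd'
    have h4 : 0 < d / t := Nat.div_pos (Nat.le_of_dvd hd0 ht) (Nat.pos_of_dvd_of_pos ht hd0)
    have h5 : (1 : ℝ) ≤ v := by exact_mod_cast Nat.pos_of_dvd_of_pos h2 h4
    have h6 : (0 : ℝ) ≤ t := Nat.cast_nonneg t
    nlinarith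
  · have h2 : (t : ℝ) ≤ d := by exact_mod_cast Nat.le_of_dvd hd0 ht
    exact h2.trans (not_lt.1 hd')

/-- Let δ ≥ 0 and κ > 0 with 84δ + 60κ < 1, and let s(d) be integers of any size, coprime to d, and 2 ≤ y(d) ≤ x.

(A) Let 0 < κ' < κ, τ ≥ 0 and 10δ + 5κ + τ < σ < 1/3. For all b, U > 0 there is C: let x ≥ 3, let M be a finite set of
squarefree d ≤ x^(1/2+δ), each with a divisor m(d) ≤ x^τ such that all primes of n(d) = d/m(d) are ≤ x^κ'. For j = 0, 1, ...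
with σ + j(κ - κ') ≤ 1/2 let r_j(d) be the largest initial product of n(d) with m(d) r_j(d) ≤ x^(σ + j(κ - κ')). Let M be the
union of at most exp(b log x/log log x) sets {d ∈ M : i(d) = k} such that, for each j and for d, d' in the same set with
m(d) = m(d') = m and r_j(d) = r_j(d') = r: s(d) ≡ s(d') modulo m r. Then
∑_{d ∈ M} |π(y(d); d, s(d)) - li y(d)/φ(d)| ≤ C x/(log x)^U.

(B) Let σ < 1/3 and ω > 10δ + 5κ. There are η > 0 and A > 0 such that for every U > 0 there is C: let x ≥ 3, 1 ≤ z ≤ x, let M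
be a finite set of squarefree d ≤ x^(1/2+δ), each with a divisor t(d) such that all primes of u(d) = d/t(d) are > z. For every
real Z in [x^σ, x^(1/2)] and every d > Z in M let v(d) = v(Z, d) be a divisor of u(d) such that r = t(d) v(d) satisfies
r ≤ Z < r x^κ and r and d/r are x^κ-dense up to x^ω. Let M be the union of the J sets
{d ∈ M : i(d) = k} such that, for every Z in [x^σ, x^(1/2)], for d, d' > Z in the same set with t(d) = t(d') and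
v(d) = v(d'): s(d) ≡ s(d') modulo t(d) v(d). Then
∑_{d ∈ M} |π(y(d); d, s(d)) - π(y(d); t(d), s(d))/φ(d/t(d))| ≤ B and
∑_{d ∈ M} |π(y(d); d, s(d)) - li y(d)/φ(d)| ≤ B + C x/(log x)^U, where B = C J x exp(A log x/log log x)/z^η. -/
theorem result :
    (∀ δ τ κ κ' σ : ℝ, 0 ≤ δ → 0 ≤ τ → 0 < κ' → κ' < κ → 84 * δ + 60 * κ < 1 → 10 * δ + 5 * κ + τ < σ → σ < 1 / 3 →
      ∀ b U : ℝ, 0 < b → 0 < U → ∃ C : ℝ,
      ∀ (x : ℝ) (s : ℕ → ℤ) (m i : ℕ → ℕ) (y : ℕ → ℝ) (M : Finset ℕ), 3 ≤ x →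
      ((M.image i).card : ℝ) ≤ Real.exp (b * Real.log x / Real.log (Real.log x)) → (∀ d, 2 ≤ y d ∧ y d ≤ x) →
      (∀ d ∈ M, (Squarefree d ∧ m d ∣ d ∧ (d : ℝ) ≤ x ^ (1 / 2 + δ) ∧ (m d : ℝ) ≤ x ^ τ ∧
          ∀ p : ℕ, p.Prime → p ∣ d / m d → (p : ℝ) ≤ x ^ κ') ∧ Int.gcd (s d) d = 1) →
      (∀ d ∈ M, ∀ d' ∈ M, i d = i d' → m d = m d' → ∀ j : ℕ, σ + j * (κ - κ') ≤ 1 / 2 →
          ∀ r : ℕ, Largest (m d) (x ^ (σ + j * (κ - κ'))) r (d / m d) →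
          Largest (m d') (x ^ (σ + j * (κ - κ'))) r (d' / m d') → ((m d * r : ℕ) : ℤ) ∣ s d - s d') →
      ∑ d ∈ M, |resErr (y d) d (s d)| ≤ C * (x / (Real.log x) ^ U)) ∧
    ∀ δ κ σ ω : ℝ, 0 ≤ δ → 0 < κ → 84 * δ + 60 * κ < 1 → σ < 1 / 3 → 10 * δ + 5 * κ < ω →
      ∃ η A : ℝ, 0 < η ∧ 0 < A ∧ ∀ U : ℝ, 0 < U → ∃ C : ℝ,
      ∀ (x z : ℝ) (s : ℕ → ℤ) (t i : ℕ → ℕ) (v : ℝ → ℕ → ℕ) (y : ℕ → ℝ) (M : Finset ℕ), 3 ≤ x → 1 ≤ z → z ≤ x →
      (∀ d, 2 ≤ y d ∧ y d ≤ x) →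
      (∀ d ∈ M, (Squarefree d ∧ t d ∣ d ∧ (d : ℝ) ≤ x ^ (1 / 2 + δ) ∧ ∀ p : ℕ, p.Prime → p ∣ d / t d → z < p) ∧
          Int.gcd (s d) d = 1) →
      (∀ Z : ℝ, x ^ σ ≤ Z → Z ≤ x ^ ((1 : ℝ) / 2) →
        (∀ d ∈ M, Z < d → v Z d ∣ d / t d ∧ (t d : ℝ) * v Z d ≤ Z ∧ Z < (t d : ℝ) * v Z d * x ^ κ ∧
          Dense (x ^ κ) (x ^ ω) (t d * v Z d) ∧ Dense (x ^ κ) (x ^ ω) (d / (t d * v Z d))) ∧
        ∀ d ∈ M, ∀ d' ∈ M, Z < d → Z < d' → i d = i d' → t d = t d' → v Z d = v Z d' →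
          ((t d * v Z d : ℕ) : ℤ) ∣ s d - s d') →
      ∑ d ∈ M, |(resCount (y d) d (s d) : ℝ) - (resCount (y d) (t d) (s d) : ℝ) / ((d / t d).totient : ℝ)| ≤
          C * ((M.image i).card * x * Real.exp (A * Real.log x / Real.log (Real.log x)) / z ^ η) ∧
        ∑ d ∈ M, |resErr (y d) d (s d)| ≤
          C * ((M.image i).card * x * Real.exp (A * Real.log x / Real.log (Real.log x)) / z ^ η) +
            C * (x / (Real.log x) ^ U) :=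
  ⟨Pool.Agent.Lib.MX.tSf, fun δ κ σ ω h1 h2 h3 h4 h5 => by
    obtain ⟨η, A, hη, hA, H⟩ := Pool.Agent.Lib.MX.tDn δ (1 / 3) κ σ ω h1 (by norm_num) le_rfl h2 h3 h4 h5
    refine ⟨η, A, hη, hA, fun U hU => ?_⟩
    obtain ⟨C, hC⟩ := H U hU
    refine ⟨C, fun x z s t i v y M hx hz hzx hy hM hv => ?_⟩
    exact hC x z s t i v y M hx hz hzx hy
      (fun d hd => ⟨⟨(hM d hd).1.1, (hM d hd).1.2.1, (hM d hd).1.2.2.1,
        small_divisor (by linarith) h4 (hM d hd).1.1 (hM d hd).1.2.1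
          (fun hd' => ⟨((hv (x ^ σ) le_rfl (Real.rpow_le_rpow_of_exponent_le (by linarith) (by linarith))).1 d hd hd').1,
            ((hv (x ^ σ) le_rfl (Real.rpow_le_rpow_of_exponent_le (by linarith) (by linarith))).1 d hd hd').2.1⟩),
        (hM d hd).1.2.2.2⟩, (hM d hd).2⟩) hv⟩

end Pool.Agent.Results.MP_00e23e_nt.MaxInside
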