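import Pool.Agent.Lib.UI.AllF
import Pool.Agent.Lib.TR.AllQ
import Pool.Agent.Lib.TR.Qex
import Pool.Agent.Lib.CO.Smb2

/-!
MP_00e23e_nt: Elliott-Halberstam to every level x^(1-ε), absolute values, maximum over y inside: for each modulus d one may choose
a divisor q ≤ x^(1/2-ε) and a reduced class modulo q, and only the lift of this class to a class modulo d is averaged, over H
consecutive members a of the class, H = (log x)^ω, ω → ∞ as slowly as we please. The definitions li, resCount, resErr are in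
Pool.Agent.Lib.EH.Defs and Pool.Agent.Lib.KF.Defs.
-/

namespace Pool.Agent.Results.MP_00e23e_nt.PolylogProgressions

open Finset Pool.Agent.Results.MP_00e23e_nt

/-- the H integers b, b + q, ..., b + (H - 1) q -/
def prog (q H : ℕ) (b : ℤ) : Finset ℤ := (range H).image (fun j : ℕ => b + q * j)

/-- For all ε, U > 0 there is C such that for all x ≥ 3: let H ≥ 2, K ≤ (log x)^U, M a finite set of pairs m = (q, d) with q | d,
q ≤ x^(1/2-ε), d ≤ x^(1-ε), and for the q which occur let P(q, i), i < K, be progressions of H integers in [-x, x] with difference q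
and members coprime to q. For all choices of an index k(m) < K and of y(m, a) ∈ [2, x] the sum
S = ∑_{m = (q,d) ∈ M} ∑_{a ∈ P(q,k(m)), (a,d) = 1} |π(y(m,a); d, a) - li y(m,a)/φ(d)|
is ≤ C H x ((loglog x/log H + (loglog x)²/log x) (∑_{(q,d) ∈ M, d > x^(1/2-ε)} 1/φ(d))/log x + (log x)^(-U)), and it is
≤ C H x/(log x)^U if q = 1 and D ≤ d ≤ Q for all pairs and H ≥ (log x)^C min(x/D, x^(1/3), 1 + Q²/x). -/
theorem result : ∀ ε U : ℝ, 0 < ε → 0 < U → ∃ C : ℝ, ∀ (x : ℝ) (H K : ℕ) (M : Finset (ℕ × ℕ)) (b : ℕ → ℕ → ℤ)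
    (k : ℕ × ℕ → ℕ) (y : ℕ × ℕ → ℤ → ℝ), 3 ≤ x → 2 ≤ H → (K : ℝ) ≤ (Real.log x) ^ U →
    (∀ m ∈ M, m.1 ∣ m.2 ∧ 1 ≤ m.2 ∧ (m.1 : ℝ) ≤ x ^ (1 / 2 - ε) ∧ (m.2 : ℝ) ≤ x ^ (1 - ε) ∧ k m < K ∧
      ∀ i < K, Int.gcd (b m.1 i) m.1 = 1 ∧ ∀ a ∈ prog m.1 H (b m.1 i), -x ≤ a ∧ a ≤ x) →
    (∀ m a, 2 ≤ y m a ∧ y m a ≤ x) →
    ∑ m ∈ M, ∑ a ∈ (prog m.1 H (b m.1 (k m))).filter (fun a => Int.gcd a m.2 = 1), |resErr (y m a) m.2 a| ≤
      C * (H * x * ((Real.log (Real.log x) / Real.log H + (Real.log (Real.log x)) ^ 2 / Real.log x) *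
        ((∑ m ∈ M.filter (fun m => x ^ (1 / 2 - ε) < m.2), 1 / (m.2.totient : ℝ)) / Real.log x) + (Real.log x) ^ (-U))) ∧
    ∀ D Q : ℝ, 1 ≤ D → (∀ m ∈ M, m.1 = 1 ∧ D ≤ m.2 ∧ m.2 ≤ Q) →
      (Real.log x) ^ C * min (x / D) (min (x ^ ((1 : ℝ) / 3)) (1 + Q ^ 2 / x)) ≤ H →
      ∑ m ∈ M, ∑ a ∈ (prog m.1 H (b m.1 (k m))).filter (fun a => Int.gcd a m.2 = 1), |resErr (y m a) m.2 a| ≤
        C * (H * x / (Real.log x) ^ U) := by
  intro ε U hε hU
  obtain ⟨C1, _, h1⟩ := Pool.Agent.Lib.TR.tQex Pool.Agent.Lib.TR.aTq Pool.Agent.Lib.TR.aQbv Pool.Agent.Lib.CO.tSmb2 ε U hε hU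
  obtain ⟨C2, h2⟩ := Pool.Agent.Lib.UI.aFiu ε (2 * U) hε (by linarith)
  refine ⟨max C1 (max C2 0), ?_⟩
  intro x H K M b k y hx hH hK hM hy
  have hlog : 1 ≤ Real.log x := by
    rw [Real.le_log_iff_exp_le (by linarith)]
    exact (Real.exp_one_lt_d9.le.trans (by norm_num)).trans hx
  have hll : 0 ≤ Real.log (Real.log x) := Real.log_nonneg hlog
  refine ⟨?_, ?_⟩
  · have hlH : 0 ≤ Real.log (H : ℝ) := Real.log_nonneg (by exact_mod_cast (by omega : 1 ≤ H))
    -- the pairs (q, e), d = q e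
    obtain ⟨DD, hDD⟩ : ∃ DD : Finset (ℕ × ℕ), DD = M.image (fun m => (m.1, m.2 / m.1)) := ⟨_, rfl⟩
    have hq1 : ∀ m ∈ M, 1 ≤ m.1 := fun m hm =>
      Nat.pos_of_dvd_of_pos (hM m hm).1 (hM m hm).2.1
    have hinj : Set.InjOn (fun m : ℕ × ℕ => (m.1, m.2 / m.1)) (M : Set (ℕ × ℕ)) := by
      intro m hm m' hm' h
      rw [mem_coe] at hm hm'
      have h3 : m.1 = m'.1 := (Prod.mk.injEq _ _ _ _ ▸ h : m.1 = m'.1 ∧ m.2 / m.1 = m'.2 / m'.1).1
      have h4 : m.2 / m.1 = m'.2 / m'.1 := (Prod.mk.injEq _ _ _ _ ▸ h : m.1 = m'.1 ∧ m.2 / m.1 = m'.2 / m'.1).2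
      have h5 : m.2 = m'.2 := by
        rw [← Nat.mul_div_cancel' (hM m hm).1, ← Nat.mul_div_cancel' (hM m' hm').1, h4, h3]
      exact Prod.ext h3 h5
    have hdat : Pool.Agent.Lib.TR.Dat ε x H K DD b (fun q e => k (q, q * e)) := by
      intro p hp
      rw [hDD, mem_image] at hp
      obtain ⟨m, hm, rfl⟩ := hp
      obtain ⟨a1, a2, a3, a4, a5, a6⟩ := hM m hm
      have hd : m.1 * (m.2 / m.1) = m.2 := Nat.mul_div_cancel' a1
      refine ⟨hq1 m hm, Nat.div_pos (Nat.le_of_dvd (by omega) a1) (hq1 m hm), a3, ?_, ?_, ?_⟩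
      · have : ((m.1 : ℕ) : ℝ) * ((m.2 / m.1 : ℕ) : ℝ) = (m.2 : ℝ) := by exact_mod_cast hd
        simp only
        rw [this]
        exact a4
      · simp only
        rw [hd]
        exact a5
      · intro i hi
        obtain ⟨c1, c2⟩ := a6 i hi
        refine ⟨c1, ?_, ?_⟩
        · have h0 := (c2 (b m.1 i) (by
            rw [prog, mem_image]
            exact ⟨0, by rw [mem_range]; omega, by push_cast; ring⟩)).1
          exact h0
        · have h0 := (c2 (b m.1 i + m.1 * ((H - 1 : ℕ) : ℤ)) (by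
            rw [prog, mem_image]
            exact ⟨H - 1, by rw [mem_range]; omega, rfl⟩)).2
          have h3 : ((H - 1 : ℕ) : ℝ) = (H : ℝ) - 1 := by
            rw [Nat.cast_sub (by omega)]
            norm_num
          push_cast at h0
          rw [h3] at h0
          simp only
          linarith
    have h3 := h1 x H K DD b (fun q e => k (q, q * e))
      (fun (q e j : ℕ) => y (q, q * e) (b q (k (q, q * e)) + q * j)) hx hH hdat hK (fun q e j => hy _ _)
    have hgcd : ∀ m ∈ M, ∀ a : ℤ, a ∈ prog m.1 H (b m.1 (k m)) →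
        (Int.gcd a m.2 = 1 ↔ Int.gcd a ((m.2 / m.1 : ℕ) : ℤ) = 1) := by
      intro m hm a ha
      obtain ⟨a1, a2, a3, a4, a5, a6⟩ := hM m hm
      have hd : m.1 * (m.2 / m.1) = m.2 := Nat.mul_div_cancel' a1
      rw [prog, mem_image] at ha
      obtain ⟨j, _, rfl⟩ := ha
      have c1 := (a6 (k m) a5).1
      have c2 : IsCoprime (b m.1 (k m) + m.1 * (j : ℤ)) (m.1 : ℤ) := by
        have := Int.isCoprime_iff_gcd_eq_one.2 c1
        exact this.add_mul_left_left (j : ℤ)
      rw [← Int.isCoprime_iff_gcd_eq_one, ← Int.isCoprime_iff_gcd_eq_one]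
      have hdz : ((m.2 : ℕ) : ℤ) = (m.1 : ℤ) * ((m.2 / m.1 : ℕ) : ℤ) := by exact_mod_cast hd.symm
      rw [hdz]
      constructor
      · intro h
        exact h.of_mul_right_right
      · intro h
        exact c2.mul_right h
    have h4 : ∑ m ∈ M, ∑ a ∈ (prog m.1 H (b m.1 (k m))).filter (fun a => Int.gcd a m.2 = 1), |resErr (y m a) m.2 a| =
        ∑ p ∈ DD, Pool.Agent.Lib.TR.Sj H p.1 p.2 (b p.1 ((fun q e => k (q, q * e)) p.1 p.2))
          ((fun (q e j : ℕ) => y (q, q * e) (b q (k (q, q * e)) + q * j)) p.1 p.2) := by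
      rw [hDD, Finset.sum_image hinj]
      apply Finset.sum_congr rfl
      intro m hm
      obtain ⟨a1, a2, a3, a4, a5, a6⟩ := hM m hm
      have hd : m.1 * (m.2 / m.1) = m.2 := Nat.mul_div_cancel' a1
      have hm' : ((m.1, m.1 * (m.2 / m.1)) : ℕ × ℕ) = m := by
        rw [hd]
      simp only
      unfold Pool.Agent.Lib.TR.Sj
      simp only [hd]
      rw [Finset.sum_filter, Finset.sum_filter, prog, Finset.sum_image]
      · apply Finset.sum_congr rfl
        intro j hj
        have h5 := hgcd m hm (b m.1 (k m) + m.1 * (j : ℤ)) (by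
          rw [prog, mem_image]
          exact ⟨j, hj, rfl⟩)
        by_cases h6 : Int.gcd (b m.1 (k m) + m.1 * (j : ℤ)) m.2 = 1
        · rw [if_pos h6, if_pos (h5.1 h6)]
        · rw [if_neg h6, if_neg (fun h7 => h6 (h5.2 h7))]
      · intro j _ j' _ h
        have h5 : (m.1 : ℤ) ≠ 0 := by
          have := hq1 m hm
          exact_mod_cast (by omega : m.1 ≠ 0)
        have h6 : (m.1 : ℤ) * j = m.1 * j' := by simpa using h
        exact_mod_cast mul_left_cancel₀ h5 h6
    have h5 : ∑ p ∈ DD.filter (fun p => x ^ (1 / 2 - ε) < (p.1 : ℝ) * p.2), 1 / ((p.1 * p.2).totient : ℝ) =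
        ∑ m ∈ M.filter (fun m => x ^ (1 / 2 - ε) < m.2), 1 / (m.2.totient : ℝ) := by
      rw [Finset.sum_filter, Finset.sum_filter, hDD, Finset.sum_image hinj]
      apply Finset.sum_congr rfl
      intro m hm
      have hd : m.1 * (m.2 / m.1) = m.2 := Nat.mul_div_cancel' (hM m hm).1
      simp only
      rw [← Nat.cast_mul, hd]
    rw [h4]
    refine h3.trans ?_
    rw [h5]
    have h6 : 1 / Real.log x * ∑ m ∈ M.filter (fun m => x ^ (1 / 2 - ε) < m.2), 1 / (m.2.totient : ℝ) =
        (∑ m ∈ M.filter (fun m => x ^ (1 / 2 - ε) < m.2), 1 / (m.2.totient : ℝ)) / Real.log x := by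
      ring
    rw [h6]
    apply mul_le_mul_of_nonneg_right (le_max_left _ _)
    have hH0 : (0 : ℝ) ≤ H := Nat.cast_nonneg _
    have hS : 0 ≤ ∑ m ∈ M.filter (fun m => x ^ (1 / 2 - ε) < m.2), 1 / (m.2.totient : ℝ) := Finset.sum_nonneg fun m _ => by positivity
    positivity
  · intro D Q hD hMD hc
    have hC0 : 0 ≤ max C1 (max C2 0) := (le_max_right C2 0).trans (le_max_right _ _)
    have hLU : 0 ≤ (Real.log x) ^ U := by positivity
    rcases M.eq_empty_or_nonempty with hMe | ⟨m0, hm0⟩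
    · rw [hMe, Finset.sum_empty]
      positivity
    -- the parameters
    obtain ⟨Q', hQ'⟩ : ∃ Q' : ℝ, Q' = min Q (x ^ (1 - ε)) := ⟨_, rfl⟩
    have hDQ' : D ≤ Q' := by
      rw [hQ']
      exact le_min ((hMD m0 hm0).2.1.trans (hMD m0 hm0).2.2) ((hMD m0 hm0).2.1.trans (hM m0 hm0).2.2.2.1)
    have hQ0 : 0 ≤ Q' := by linarith
    have hQ'Q : Q' ≤ Q := by
      rw [hQ']
      exact min_le_left _ _
    have hmin : 0 ≤ min (x / D) (min (x ^ ((1 : ℝ) / 3)) (1 + Q ^ 2 / x)) := by
      apply le_min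
      · positivity
      · apply le_min
        · positivity
        · positivity
    have h5 : (Real.log x) ^ C2 * min (x / D) (min (x ^ ((1 : ℝ) / 3)) (1 + Q' ^ 2 / x)) ≤ H := by
      have h6 : min (x / D) (min (x ^ ((1 : ℝ) / 3)) (1 + Q' ^ 2 / x)) ≤
          min (x / D) (min (x ^ ((1 : ℝ) / 3)) (1 + Q ^ 2 / x)) := by
        apply min_le_min le_rfl
        apply min_le_min le_rfl
        have : Q' ^ 2 ≤ Q ^ 2 := by nlinarith
        gcongr
      refine le_trans ?_ hc
      apply mul_le_mul _ h6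
      · apply le_min
        · positivity
        · apply le_min
          · positivity
          · positivity
      · positivity
      · exact Real.rpow_le_rpow_of_exponent_le hlog ((le_max_left C2 0).trans (le_max_right _ _))
    have hkey : ∀ i < K, ∑ m ∈ M, ∑ a ∈ (prog m.1 H (b 1 i)).filter (fun a => Int.gcd a m.2 = 1),
        |resErr (y m a) m.2 a| ≤ C2 * (H * x / (Real.log x) ^ (2 * U)) := by
      intro i hi
      have hb := (hM m0 hm0).2.2.2.2.2 i hi
      rw [(hMD m0 hm0).1] at hb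
      have hb1 : -x ≤ (b 1 i : ℝ) := (hb.2 (b 1 i) (by
        rw [prog, mem_image]
        exact ⟨0, by rw [mem_range]; omega, by push_cast; ring⟩)).1
      have hb2 : (b 1 i : ℝ) + H ≤ x + 1 := by
        have h0 := (hb.2 (b 1 i + (1 : ℕ) * ((H - 1 : ℕ) : ℤ)) (by
          rw [prog, mem_image]
          exact ⟨H - 1, by rw [mem_range]; omega, rfl⟩)).2
        have h3 : ((H - 1 : ℕ) : ℝ) = (H : ℝ) - 1 := by
          rw [Nat.cast_sub (by omega)]
          norm_num
        push_cast at h0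
        rw [h3] at h0
        linarith
      have hprog : prog 1 H (b 1 i) = Ico (b 1 i) (b 1 i + H) := by
        ext a
        rw [prog, mem_image, mem_Ico]
        constructor
        · rintro ⟨j, hj, rfl⟩
          rw [mem_range] at hj
          push_cast
          constructor
          · omega
          · omega
        · rintro ⟨h3, h4⟩
          refine ⟨(a - b 1 i).toNat, ?_, ?_⟩
          · rw [mem_range]
            omega
          · have : (((a - b 1 i).toNat : ℕ) : ℤ) = a - b 1 i := Int.toNat_of_nonneg (by omega)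
            rw [this]
            push_cast
            ring
      refine le_trans ?_ (h2 x D Q' (b 1 i) H (fun d a => y (1, d) a) hx hD hDQ' (by
        rw [hQ']
        exact min_le_right _ _) hb1 hb2 h5 (fun d a => hy _ _))
      have h6 : ∑ m ∈ M, ∑ a ∈ (prog m.1 H (b 1 i)).filter (fun a => Int.gcd a m.2 = 1), |resErr (y m a) m.2 a| =
          ∑ a ∈ Ico (b 1 i) (b 1 i + H), ∑ m ∈ M, if Int.gcd a m.2 = 1 then |resErr (y m a) m.2 a| else 0 := by
        rw [Finset.sum_comm]
        apply Finset.sum_congr rfl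
        intro m hm
        rw [(hMD m hm).1, hprog, Finset.sum_filter]
      rw [h6]
      apply Finset.sum_le_sum
      intro a _
      have hinj : Set.InjOn (fun m : ℕ × ℕ => m.2) (M : Set (ℕ × ℕ)) := by
        intro m hm m' hm' h
        rw [mem_coe] at hm hm'
        exact Prod.ext ((hMD m hm).1.trans (hMD m' hm').1.symm) h
      have h7 : ∑ m ∈ M, (if Int.gcd a m.2 = 1 then |resErr (y m a) m.2 a| else 0) =
          ∑ d ∈ M.image (fun m : ℕ × ℕ => m.2), if Int.gcd a d = 1 then |resErr (y (1, d) a) d a| else 0 := by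
        rw [Finset.sum_image hinj]
        apply Finset.sum_congr rfl
        intro m hm
        have h8 : ((1, m.2) : ℕ × ℕ) = m := by
          rw [← (hMD m hm).1]
        rw [h8]
      rw [h7, Finset.sum_filter]
      apply Finset.sum_le_sum_of_subset_of_nonneg
      · intro d hd
        rw [mem_image] at hd
        obtain ⟨m, hm, rfl⟩ := hd
        rw [mem_Icc]
        constructor
        · exact Nat.ceil_le.2 (hMD m hm).2.1
        · apply Nat.le_floor
          rw [hQ']
          exact le_min (hMD m hm).2.2 (hM m hm).2.2.2.1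
      · intro d _ _
        split_ifs
        · exact abs_nonneg _
        · exact le_rfl
    have h8 : ∑ m ∈ M, ∑ a ∈ (prog m.1 H (b m.1 (k m))).filter (fun a => Int.gcd a m.2 = 1), |resErr (y m a) m.2 a| ≤
        ∑ m ∈ M, ∑ i ∈ range K, ∑ a ∈ (prog m.1 H (b 1 i)).filter (fun a => Int.gcd a m.2 = 1), |resErr (y m a) m.2 a| := by
      apply Finset.sum_le_sum
      intro m hm
      have h9 : b m.1 (k m) = b 1 (k m) := by
        rw [(hMD m hm).1]
      rw [h9]
      apply Finset.single_le_sum (f := fun i => ∑ a ∈ (prog m.1 H (b 1 i)).filter (fun a => Int.gcd a m.2 = 1),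
        |resErr (y m a) m.2 a|) (fun i _ => Finset.sum_nonneg fun a _ => abs_nonneg _)
      rw [mem_range]
      exact (hM m hm).2.2.2.2.1
    refine h8.trans ?_
    rw [Finset.sum_comm]
    refine (Finset.sum_le_card_nsmul (range K) _ _ (fun i hi => hkey i (mem_range.1 hi))).trans ?_
    rw [card_range, nsmul_eq_mul]
    have h10 : (Real.log x) ^ (2 * U) = (Real.log x) ^ U * (Real.log x) ^ U := by
      rw [← Real.rpow_add (by linarith)]
      congr 1
      ring
    have hLU1 : 0 < (Real.log x) ^ U := by positivity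
    have hT : 0 ≤ H * x / ((Real.log x) ^ U * (Real.log x) ^ U) := by positivity
    rw [h10]
    calc (K : ℝ) * (C2 * (H * x / ((Real.log x) ^ U * (Real.log x) ^ U)))
        ≤ (K : ℝ) * (max C1 (max C2 0) * (H * x / ((Real.log x) ^ U * (Real.log x) ^ U))) := by
          apply mul_le_mul_of_nonneg_left _ (Nat.cast_nonneg _)
          exact mul_le_mul_of_nonneg_right ((le_max_left C2 0).trans (le_max_right _ _)) hT
      _ ≤ (Real.log x) ^ U * (max C1 (max C2 0) * (H * x / ((Real.log x) ^ U * (Real.log x) ^ U))) :=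
          mul_le_mul_of_nonneg_right hK (mul_nonneg hC0 hT)
      _ = max C1 (max C2 0) * (H * x / (Real.log x) ^ U) := by
          field_simp

end Pool.Agent.Results.MP_00e23e_nt.PolylogProgressions
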