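import Pool.Agent.Lib.TB.AllK

/-!
MP_00e23e_nt: level of distribution 1/2 + 1/1000 for all but polylogarithmically many residue functions, with the
maximum over y ≤ x inside the sum. The definitions li, resCount, resErr are in Pool.Agent.Lib.EH.Defs and
Pool.Agent.Lib.KF.Defs.
-/

namespace Pool.Agent.Results.MP_00e23e_nt.PolylogResidues

open Finset Pool.Agent.Results.MP_00e23e_nt

/-- There are η > 0 and k such that for every U > 0 there is C: let x ≥ 3 and D = x^(1/2+1/1000), and let s_i,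
i ∈ J, be a finite family of functions from the moduli d ≤ D to the integers in [-x, x], each with at most x^η
values, and s_i(d) ≠ s_j(d) for all i ≠ j and all d ≤ D. Then for all i ∈ J with at most C (log x)^(5U+k)
exceptions, and for all choices of y(d) ∈ [2, x],
∑_{d ≤ D, (s_i(d),d) = 1} |π(y(d); d, s_i(d)) - li y(d)/φ(d)| ≤ C x/(log x)^U. -/
theorem result : ∃ η : ℝ, 0 < η ∧ ∃ k : ℝ, ∀ U : ℝ, 0 < U → ∃ C : ℝ,
    ∀ (x : ℝ) (J : Finset ℕ) (s : ℕ → ℕ → ℤ), 3 ≤ x →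
    (∀ i ∈ J, ∀ d ∈ Icc 1 ⌊x ^ ((1 : ℝ) / 2 + 1 / 1000)⌋₊, |(s i d : ℝ)| ≤ x) →
    (∀ i ∈ J, (((Icc 1 ⌊x ^ ((1 : ℝ) / 2 + 1 / 1000)⌋₊).image (s i)).card : ℝ) ≤ x ^ η) →
    (∀ i ∈ J, ∀ j ∈ J, i ≠ j → ∀ d ∈ Icc 1 ⌊x ^ ((1 : ℝ) / 2 + 1 / 1000)⌋₊, s i d ≠ s j d) →
    ∃ S ⊆ J, (S.card : ℝ) ≤ C * (Real.log x) ^ (5 * U + k) ∧ ∀ i ∈ J, i ∉ S →
      ∀ y : ℕ → ℝ, (∀ d, 2 ≤ y d ∧ y d ≤ x) →
        ∑ d ∈ (Icc 1 ⌊x ^ ((1 : ℝ) / 2 + 1 / 1000)⌋₊).filter (fun d : ℕ => Int.gcd (s i d) d = 1),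
          |resErr (y d) d (s i d)| ≤ C * (x / (Real.log x) ^ U) :=
  Pool.Agent.Lib.TB.tTK

end Pool.Agent.Results.MP_00e23e_nt.PolylogResidues
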